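import Mathlib
open MeasureTheory Set Filter Topology Real

namespace Pool.Agent.H64.Flow1D

/-- one-dimensional kernel -/
noncomputable def K (e s x u : ℝ) : ℝ := (√(2 * π * s))⁻¹ * Real.exp (-(x - e * u) ^ 2 / (2 * s))

lemma K_nonneg (e s x u : ℝ) : 0 ≤ K e s x u := by unfold K; positivity

lemma K_pos {s : ℝ} (hs : 0 < s) (e x u : ℝ) : 0 < K e s x u := by unfold K; positivity

lemma continuous_K (e s : ℝ) : Continuous fun p : ℝ × ℝ => K e s p.1 p.2 := by
  unfold K
  fun_prop

lemma int_gauss_shift {s : ℝ} (hs : 0 < s) (a : ℝ) :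
    ∫ x : ℝ, Real.exp (-(x - a) ^ 2 / (2 * s)) = √(2 * π * s) := by
  have h := integral_sub_right_eq_self (μ := volume) (fun x : ℝ => Real.exp (-(1 / (2 * s)) * x ^ 2)) a
  rw [integral_gaussian] at h
  have e1 : π / (1 / (2 * s)) = 2 * π * s := by field_simp
  rw [e1] at h
  rw [← h]
  refine integral_congr_ae (Eventually.of_forall fun x => ?_)
  simp only
  congr 1
  field_simp

lemma integrable_gauss_shift {s : ℝ} (hs : 0 < s) (a : ℝ) :
    Integrable fun x : ℝ => Real.exp (-(x - a) ^ 2 / (2 * s)) := by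
  have h := (integrable_exp_neg_mul_sq (b := 1 / (2 * s)) (by positivity)).comp_sub_right a
  refine h.congr (Eventually.of_forall fun x => ?_)
  simp only
  congr 1
  field_simp

/-- the kernel integrates to one in its first variable -/
lemma int_K_x {s : ℝ} (hs : 0 < s) (e u : ℝ) : ∫ x : ℝ, K e s x u = 1 := by
  unfold K
  rw [integral_const_mul, int_gauss_shift hs]
  have : 0 < √(2 * π * s) := by positivity
  field_simp

lemma integrable_K_x {s : ℝ} (hs : 0 < s) (e u : ℝ) : Integrable fun x : ℝ => K e s x u :=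
  (integrable_gauss_shift hs _).const_mul _

/-- exponentially tilted integral of the kernel in its second variable -/
lemma tilt {e s : ℝ} (he : 0 < e) (hs : 0 < s) (x y : ℝ) :
    ∫ u : ℝ, K e s x u * Real.exp ((x - e * u) * y) = e⁻¹ * Real.exp (s * y ^ 2 / 2) := by
  have hpos : 0 < √(2 * π * s) := by positivity
  have h0 : ∀ v : ℝ, Real.exp (-v ^ 2 / (2 * s)) * Real.exp (v * y) =
      Real.exp (s * y ^ 2 / 2) * Real.exp (-(v - s * y) ^ 2 / (2 * s)) := by
    intro v
    rw [← Real.exp_add, ← Real.exp_add]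
    congr 1
    field_simp
    ring
  have h1 : ∀ u : ℝ, K e s x u * Real.exp ((x - e * u) * y) =
      (√(2 * π * s))⁻¹ * Real.exp (s * y ^ 2 / 2) *
        Real.exp (-((x - e * u) - s * y) ^ 2 / (2 * s)) := by
    intro u
    unfold K
    rw [mul_assoc (√(2 * π * s))⁻¹, h0, ← mul_assoc]
  have h2 := Measure.integral_comp_mul_left (fun w => (√(2 * π * s))⁻¹ * Real.exp (s * y ^ 2 / 2) *
        Real.exp (-((x - w) - s * y) ^ 2 / (2 * s))) e
  have h3 := integral_sub_left_eq_self (fun v => (√(2 * π * s))⁻¹ * Real.exp (s * y ^ 2 / 2) *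
        Real.exp (-(v - s * y) ^ 2 / (2 * s))) (volume : Measure ℝ) x
  rw [integral_congr_ae (Eventually.of_forall h1), h2, h3, abs_of_pos (inv_pos.2 he), smul_eq_mul,
    integral_const_mul, int_gauss_shift hs]
  field_simp

lemma integrable_tilt {e s : ℝ} (he : 0 < e) (hs : 0 < s) (x y : ℝ) :
    Integrable fun u : ℝ => K e s x u * Real.exp ((x - e * u) * y) := by
  by_contra h
  have := integral_undef h
  rw [tilt he hs] at this
  have h2 : 0 < e⁻¹ * Real.exp (s * y ^ 2 / 2) := by positivity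
  linarith

/-- the Gaussian is stationary -/
lemma gauss_flow {e s : ℝ} (hs : 0 < s) (hes : s + e ^ 2 = 1) (x : ℝ) :
    ∫ u : ℝ, Real.exp (-u ^ 2 / 2) * K e s x u = Real.exp (-x ^ 2 / 2) := by
  have hpos : 0 < √(2 * π * s) := by positivity
  have h0 : ∀ u : ℝ, Real.exp (-u ^ 2 / 2) * Real.exp (-(x - e * u) ^ 2 / (2 * s)) =
      Real.exp (-x ^ 2 / 2) * Real.exp (-(u - e * x) ^ 2 / (2 * s)) := by
    intro u
    rw [← Real.exp_add, ← Real.exp_add]
    congr 1
    have : s = 1 - e ^ 2 := by linarith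
    field_simp
    rw [this]; ring
  have h1 : ∀ u : ℝ, Real.exp (-u ^ 2 / 2) * K e s x u =
      (√(2 * π * s))⁻¹ * Real.exp (-x ^ 2 / 2) * Real.exp (-(u - e * x) ^ 2 / (2 * s)) := by
    intro u
    unfold K
    rw [mul_left_comm, h0, ← mul_assoc]
  rw [integral_congr_ae (Eventually.of_forall h1), integral_const_mul, int_gauss_shift hs]
  field_simp

lemma integrable_gauss_flow {e s : ℝ} (hs : 0 < s) (hes : s + e ^ 2 = 1) (x : ℝ) :
    Integrable fun u : ℝ => Real.exp (-u ^ 2 / 2) * K e s x u := by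
  by_contra h
  have := integral_undef h
  rw [gauss_flow hs hes] at this
  have h2 : 0 < Real.exp (-x ^ 2 / 2) := by positivity
  linarith


/-- the one-dimensional example -/
noncomputable def f1 (L p d R x : ℝ) : ℝ :=
  (Icc (-L) (-L + d)).indicator (fun _ => (1:ℝ)) x +
  (Ioc (-L + d) 0).indicator (fun x => Real.exp (-x ^ 2 / 2)) x +
  (Ioc 0 R).indicator (fun _ => (1:ℝ)) x +
  (Icc (L - p) L).indicator (fun _ => (1:ℝ)) x

/-- the constraints on the parameters -/
structure Par (L p d R : ℝ) : Prop where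
  p0 : 0 < p
  d0 : 0 < d
  dL : d < L
  R0 : 0 ≤ R
  RL : R < L - p

lemma Par.L0 {L p d R : ℝ} (h : Par L p d R) : 0 < L := h.d0.trans h.dL

lemma f1_nonneg (L p d R x : ℝ) : 0 ≤ f1 L p d R x := by
  unfold f1
  refine add_nonneg (add_nonneg (add_nonneg ?_ ?_) ?_) ?_
  all_goals exact Set.indicator_nonneg (fun _ _ => by positivity) _

lemma measurable_f1 (L p d R : ℝ) : Measurable (f1 L p d R) := by
  unfold f1
  refine Measurable.add (Measurable.add (Measurable.add ?_ ?_) ?_) ?_
  · exact measurable_const.indicator measurableSet_Icc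
  · exact Measurable.indicator (by fun_prop) measurableSet_Ioc
  · exact measurable_const.indicator measurableSet_Ioc
  · exact measurable_const.indicator measurableSet_Icc

/-- pointwise description: on the left, below the Gaussian or in the left spike; on the right, at most one -/
lemma f1_cases {L p d R : ℝ} (h : Par L p d R) (x : ℝ) :
    (x ∈ Icc (-L) (-L + d) ∧ f1 L p d R x = 1) ∨
    (x ∈ Ioc (-L + d) 0 ∧ f1 L p d R x = Real.exp (-x ^ 2 / 2)) ∨
    (x ∈ Ioc 0 R ∧ f1 L p d R x = 1) ∨ (x ∈ Icc (L - p) L ∧ f1 L p d R x = 1) ∨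
    (x ∉ Icc (-L) (-L + d) ∧ x ∉ Ioc (-L + d) 0 ∧ x ∉ Ioc 0 R ∧ x ∉ Icc (L - p) L
      ∧ f1 L p d R x = 0) := by
  obtain ⟨p0, d0, dL, R0, RL⟩ := h
  unfold f1
  by_cases h1 : x ∈ Icc (-L) (-L + d)
  · left
    have h2 : x ∉ Ioc (-L + d) 0 := fun hh => by linarith [hh.1, h1.2]
    have h3 : x ∉ Ioc 0 R := fun hh => by linarith [hh.1, h1.2]
    have h4 : x ∉ Icc (L - p) L := fun hh => by linarith [hh.1, h1.2]
    refine ⟨h1, ?_⟩
    rw [Set.indicator_of_mem h1, Set.indicator_of_notMem h2, Set.indicator_of_notMem h3,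
      Set.indicator_of_notMem h4]; ring
  right
  by_cases h2 : x ∈ Ioc (-L + d) 0
  · left
    have h3 : x ∉ Ioc 0 R := fun hh => by linarith [hh.1, h2.2]
    have h4 : x ∉ Icc (L - p) L := fun hh => by linarith [hh.1, h2.2]
    refine ⟨h2, ?_⟩
    rw [Set.indicator_of_notMem h1, Set.indicator_of_mem h2, Set.indicator_of_notMem h3,
      Set.indicator_of_notMem h4]; ring
  right
  by_cases h3 : x ∈ Ioc 0 R
  · left
    have h4 : x ∉ Icc (L - p) L := fun hh => by linarith [hh.1, h3.2]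
    refine ⟨h3, ?_⟩
    rw [Set.indicator_of_notMem h1, Set.indicator_of_notMem h2, Set.indicator_of_mem h3,
      Set.indicator_of_notMem h4]; ring
  right
  by_cases h4 : x ∈ Icc (L - p) L
  · left
    refine ⟨h4, ?_⟩
    rw [Set.indicator_of_notMem h1, Set.indicator_of_notMem h2, Set.indicator_of_notMem h3,
      Set.indicator_of_mem h4]; ring
  right
  refine ⟨h1, h2, h3, h4, ?_⟩
  rw [Set.indicator_of_notMem h1, Set.indicator_of_notMem h2, Set.indicator_of_notMem h3,
      Set.indicator_of_notMem h4]; ring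

lemma exp_neg_sq_le_one (x : ℝ) : Real.exp (-x ^ 2 / 2) ≤ 1 := by
  rw [Real.exp_le_one_iff]; nlinarith [sq_nonneg x]

lemma f1_le_one {L p d R : ℝ} (h : Par L p d R) (x : ℝ) : f1 L p d R x ≤ 1 := by
  rcases f1_cases h x with h' | h' | h' | h' | h'
  · exact h'.2.le
  · rw [h'.2]; exact exp_neg_sq_le_one x
  · exact h'.2.le
  · exact h'.2.le
  · rw [h'.2.2.2.2]; exact zero_le_one

lemma f1_supp {L p d R : ℝ} (h : Par L p d R) {x : ℝ} (hx : 0 < f1 L p d R x) : -L ≤ x ∧ x ≤ L := by
  have hh := h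
  obtain ⟨p0, d0, dL, R0, RL⟩ := h
  rcases f1_cases hh x with h' | h' | h' | h' | h'
  · exact ⟨h'.1.1, by linarith [h'.1.2]⟩
  · exact ⟨by linarith [h'.1.1], by linarith [h'.1.2]⟩
  · exact ⟨by linarith [h'.1.1], by linarith [h'.1.2]⟩
  · exact ⟨by linarith [h'.1.1], by linarith [h'.1.2]⟩
  · rw [h'.2.2.2.2] at hx; exact absurd hx (lt_irrefl _)

lemma f1_L {L p d R : ℝ} (h : Par L p d R) : f1 L p d R L = 1 := by
  have hh := h
  obtain ⟨p0, d0, dL, R0, RL⟩ := h
  rcases f1_cases hh L with h' | h' | h' | h' | h'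
  · exact h'.2
  · exfalso; linarith [h'.1.2]
  · exact h'.2
  · exact h'.2
  · exfalso; exact h'.2.2.2.1 ⟨by linarith, le_rfl⟩

lemma f1_negL {L p d R : ℝ} (h : Par L p d R) : f1 L p d R (-L) = 1 := by
  have hh := h
  obtain ⟨p0, d0, dL, R0, RL⟩ := h
  rcases f1_cases hh (-L) with h' | h' | h' | h' | h'
  · exact h'.2
  · exfalso; linarith [h'.1.1]
  · exact h'.2
  · exact h'.2
  · exfalso; exact h'.1 ⟨le_rfl, by linarith⟩

lemma integrable_ind_Icc {a b : ℝ} {g : ℝ → ℝ} (hg : Continuous g) :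
    Integrable ((Icc a b).indicator g) :=
  (integrable_indicator_iff measurableSet_Icc).2 (hg.continuousOn.integrableOn_compact isCompact_Icc)

lemma integrable_ind_Ioc {a b : ℝ} {g : ℝ → ℝ} (hg : Continuous g) :
    Integrable ((Ioc a b).indicator g) :=
  (integrable_indicator_iff measurableSet_Ioc).2
    ((hg.continuousOn.integrableOn_compact isCompact_Icc).mono_set Ioc_subset_Icc_self)

lemma int_ind_Icc {a b : ℝ} (hab : a ≤ b) (g : ℝ → ℝ) :
    ∫ x, (Icc a b).indicator g x = ∫ x in a..b, g x := by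
  rw [integral_indicator measurableSet_Icc, integral_Icc_eq_integral_Ioc,
    intervalIntegral.integral_of_le hab]

lemma int_ind_Ioc {a b : ℝ} (hab : a ≤ b) (g : ℝ → ℝ) :
    ∫ x, (Ioc a b).indicator g x = ∫ x in a..b, g x := by
  rw [integral_indicator measurableSet_Ioc, intervalIntegral.integral_of_le hab]

lemma f1_mul (L p d R : ℝ) (g : ℝ → ℝ) : (fun x => f1 L p d R x * g x) = fun x =>
    (Icc (-L) (-L + d)).indicator g x +
    (Ioc (-L + d) 0).indicator (fun x => Real.exp (-x ^ 2 / 2) * g x) x +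
    (Ioc 0 R).indicator g x + (Icc (L - p) L).indicator g x := by
  ext x
  unfold f1
  rw [add_mul, add_mul, add_mul]
  congr 1
  · congr 1
    · congr 1
      · by_cases hx : x ∈ Icc (-L) (-L + d) <;> simp [Set.indicator, hx]
      · by_cases hx : x ∈ Ioc (-L + d) 0 <;> simp [Set.indicator, hx]
    · by_cases hx : x ∈ Ioc 0 R <;> simp [Set.indicator, hx]
  · by_cases hx : x ∈ Icc (L - p) L <;> simp [Set.indicator, hx]

lemma integrable_f1_mul (L p d R : ℝ) {g : ℝ → ℝ} (hg : Continuous g) :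
    Integrable (fun x => f1 L p d R x * g x) := by
  rw [f1_mul]
  exact (((integrable_ind_Icc hg).add (integrable_ind_Ioc (by fun_prop))).add
    (integrable_ind_Ioc hg)).add (integrable_ind_Icc hg)

lemma int_f1_mul {L p d R : ℝ} (h : Par L p d R) {g : ℝ → ℝ} (hg : Continuous g) :
    ∫ x, f1 L p d R x * g x = (∫ x in (-L)..(-L + d), g x) +
      (∫ x in (-L + d)..0, Real.exp (-x ^ 2 / 2) * g x) + (∫ x in (0:ℝ)..R, g x) +
      ∫ x in (L - p)..L, g x := by
  obtain ⟨p0, d0, dL, R0, RL⟩ := h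
  rw [f1_mul]
  have i1 : Integrable (fun x => (Icc (-L) (-L + d)).indicator g x) := integrable_ind_Icc hg
  have i2 : Integrable (fun x => (Ioc (-L + d) 0).indicator (fun x => Real.exp (-x ^ 2 / 2) * g x) x) :=
    integrable_ind_Ioc (by fun_prop)
  have i3 : Integrable (fun x => (Ioc 0 R).indicator g x) := integrable_ind_Ioc hg
  have i4 : Integrable (fun x => (Icc (L - p) L).indicator g x) := integrable_ind_Icc hg
  have i12 : Integrable (fun x => (Icc (-L) (-L + d)).indicator g x +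
    (Ioc (-L + d) 0).indicator (fun x => Real.exp (-x ^ 2 / 2) * g x) x) := i1.add i2
  have i123 : Integrable (fun x => (Icc (-L) (-L + d)).indicator g x +
    (Ioc (-L + d) 0).indicator (fun x => Real.exp (-x ^ 2 / 2) * g x) x +
    (Ioc 0 R).indicator g x) := i12.add i3
  rw [integral_add i123 i4, integral_add i12 i3, integral_add i1 i2, int_ind_Icc (by linarith),
    int_ind_Ioc (by linarith), int_ind_Ioc R0, int_ind_Icc (by linarith)]


/-- mass of the truncated Gaussian piece -/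
noncomputable def A (L d : ℝ) : ℝ := ∫ x in (-L + d)..0, Real.exp (-x ^ 2 / 2)

/-- total mass -/
noncomputable def M (L p d R : ℝ) : ℝ := d + A L d + R + p

lemma int_f1 {L p d R : ℝ} (h : Par L p d R) : ∫ x, f1 L p d R x = M L p d R := by
  have := int_f1_mul h (g := fun _ => 1) continuous_const
  simp only [mul_one, intervalIntegral.integral_const, smul_eq_mul] at this
  rw [this]; unfold M A; ring

lemma integrable_f1 (L p d R : ℝ) : Integrable (f1 L p d R) := by
  have := integrable_f1_mul L p d R (g := fun _ => 1) continuous_const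
  simpa using this

lemma hasDeriv_gauss (x : ℝ) :
    HasDerivAt (fun x => Real.exp (-x ^ 2 / 2)) (Real.exp (-x ^ 2 / 2) * (-x)) x := by
  have h1 : HasDerivAt (fun x : ℝ => -x ^ 2 / 2) (-x) x := by
    exact (((hasDerivAt_pow 2 x).neg).div_const 2).congr_deriv (by norm_num; ring)
  exact h1.exp

lemma moment1 {L p d R : ℝ} (h : Par L p d R) : ∫ x, f1 L p d R x * x =
    -(L * d) + d ^ 2 / 2 - (1 - Real.exp (-(-L + d) ^ 2 / 2)) + R ^ 2 / 2 + p * L - p ^ 2 / 2 := by
  rw [int_f1_mul h (g := fun x => x) continuous_id, integral_id, integral_id, integral_id]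
  have h1 : ∫ x in (-L + d)..0, Real.exp (-x ^ 2 / 2) * x =
      -(1 - Real.exp (-(-L + d) ^ 2 / 2)) := by
    have := intervalIntegral.integral_eq_sub_of_hasDerivAt (a := -L + d) (b := 0)
      (f := fun x => -Real.exp (-x ^ 2 / 2)) (f' := fun x => Real.exp (-x ^ 2 / 2) * x)
      (fun x _ => (hasDeriv_gauss x).neg.congr_deriv (by ring)) (Continuous.intervalIntegrable (by fun_prop) _ _)
    rw [this]; simp; ring
  rw [h1]; ring

lemma A_nonneg {L d : ℝ} (hdL : d < L) : 0 ≤ A L d :=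
  intervalIntegral.integral_nonneg (by linarith) fun _ _ => (Real.exp_pos _).le

lemma moment2 {L p d R : ℝ} (h : Par L p d R) : ∫ x, f1 L p d R x * x ^ 2 ≤
    d * L ^ 2 + A L d + R ^ 3 / 3 + p * L ^ 2 := by
  have hh := h
  obtain ⟨p0, d0, dL, R0, RL⟩ := h
  rw [int_f1_mul hh (g := fun x => x ^ 2) (by fun_prop)]
  have b1 : ∫ x in (-L)..(-L + d), x ^ 2 ≤ d * L ^ 2 := by
    have : ∫ x in (-L)..(-L + d), x ^ 2 ≤ ∫ x in (-L)..(-L + d), L ^ 2 := by
      refine intervalIntegral.integral_mono_on (by linarith)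
        (Continuous.intervalIntegrable (by fun_prop) _ _)
        (Continuous.intervalIntegrable (by fun_prop) _ _) fun x hx => ?_
      nlinarith [hx.1, hx.2]
    refine this.trans (le_of_eq ?_)
    simp
  have b2 : ∫ x in (-L + d)..0, Real.exp (-x ^ 2 / 2) * x ^ 2 ≤ A L d := by
    have e1 := intervalIntegral.integral_eq_sub_of_hasDerivAt (a := -L + d) (b := 0)
      (f := fun x => x * Real.exp (-x ^ 2 / 2))
      (f' := fun x => Real.exp (-x ^ 2 / 2) - Real.exp (-x ^ 2 / 2) * x ^ 2)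
      (fun x _ => ((hasDerivAt_id' x).mul (hasDeriv_gauss x)).congr_deriv (by ring)) (Continuous.intervalIntegrable (by fun_prop) _ _)
    rw [intervalIntegral.integral_sub (Continuous.intervalIntegrable (by fun_prop) _ _)
      (Continuous.intervalIntegrable (by fun_prop) _ _)] at e1
    have e2 : 0 ≤ -((-L + d) * Real.exp (-(-L + d) ^ 2 / 2)) := by
      have := Real.exp_pos (-(-L + d) ^ 2 / 2)
      nlinarith
    unfold A
    simp only [zero_mul, zero_sub] at e1
    linarith
  have b3 : ∫ x in (0:ℝ)..R, x ^ 2 = R ^ 3 / 3 := by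
    rw [integral_pow]; norm_num
  have b4 : ∫ x in (L - p)..L, x ^ 2 ≤ p * L ^ 2 := by
    have : ∫ x in (L - p)..L, x ^ 2 ≤ ∫ x in (L - p)..L, L ^ 2 := by
      refine intervalIntegral.integral_mono_on (by linarith)
        (Continuous.intervalIntegrable (by fun_prop) _ _)
        (Continuous.intervalIntegrable (by fun_prop) _ _) fun x hx => ?_
      nlinarith [hx.1, hx.2]
    refine this.trans (le_of_eq ?_)
    simp
  linarith

/-- the one-dimensional flow -/
noncomputable def F (e s L p d R x : ℝ) : ℝ := ∫ u, f1 L p d R u * K e s x u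

lemma continuous_K_right (e s x : ℝ) : Continuous (K e s x) := by
  unfold K; fun_prop

lemma integrable_F (e s L p d R x : ℝ) : Integrable (fun u => f1 L p d R u * K e s x u) :=
  integrable_f1_mul L p d R (continuous_K_right e s x)

lemma K_tilt_le {s : ℝ} (hs : 0 < s) (e x u y : ℝ) :
    K e s x u * Real.exp ((x - e * u) * y) ≤ (√(2 * π * s))⁻¹ * Real.exp (s * y ^ 2 / 2) := by
  unfold K
  rw [mul_assoc, ← Real.exp_add]
  refine mul_le_mul_of_nonneg_left (Real.exp_le_exp.2 ?_) (by positivity)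
  have : -(x - e * u) ^ 2 / (2 * s) + (x - e * u) * y - s * y ^ 2 / 2 =
      -((x - e * u) - s * y) ^ 2 / (2 * s) := by field_simp; ring
  have h2 : -((x - e * u) - s * y) ^ 2 / (2 * s) ≤ 0 := by
    apply div_nonpos_of_nonpos_of_nonneg
    · nlinarith [sq_nonneg ((x - e * u) - s * y)]
    · linarith
  linarith

/-- upper bound for the tilted flow -/
lemma upper_tilt {e s L p d R : ℝ} (h : Par L p d R) (he : 0 < e) (he1 : e ≤ 1) (hs : 0 < s)
    (hes : s + e ^ 2 = 1) (x y : ℝ) (hy : y ≤ 0) :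
    Real.exp (x * y) * F e s L p d R x ≤ e⁻¹ * Real.exp (y ^ 2 / 2) +
      (√(2 * π * s))⁻¹ * Real.exp (s * y ^ 2 / 2) * (p + d * Real.exp (-(L * y))) := by
  have hh := h
  obtain ⟨p0, d0, dL, R0, RL⟩ := h
  set C := (√(2 * π * s))⁻¹ with hC
  have hC0 : 0 ≤ C := by positivity
  set c2 := C * Real.exp (s * y ^ 2 / 2) with hc2
  have hc20 : 0 ≤ c2 := by positivity
  unfold F
  rw [← integral_const_mul]
  have i1 : Integrable (fun u => Real.exp (e ^ 2 * y ^ 2 / 2) *
      (K e s x u * Real.exp ((x - e * u) * y))) := (integrable_tilt he hs x y).const_mul _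
  have i2 : Integrable (fun u => c2 * (Icc (L - p) L).indicator (fun _ => (1:ℝ)) u) :=
    (integrable_ind_Icc continuous_const).const_mul _
  have i3 : Integrable (fun u => c2 * Real.exp (-(L * y)) *
      (Icc (-L) (-L + d)).indicator (fun _ => (1:ℝ)) u) :=
    (integrable_ind_Icc continuous_const).const_mul _
  have i12 : Integrable (fun u => Real.exp (e ^ 2 * y ^ 2 / 2) *
      (K e s x u * Real.exp ((x - e * u) * y)) +
      c2 * (Icc (L - p) L).indicator (fun _ => (1:ℝ)) u) := i1.add i2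
  have key : ∫ u, Real.exp (x * y) * (f1 L p d R u * K e s x u) ≤
      ∫ u, (Real.exp (e ^ 2 * y ^ 2 / 2) * (K e s x u * Real.exp ((x - e * u) * y)) +
      c2 * (Icc (L - p) L).indicator (fun _ => (1:ℝ)) u +
      c2 * Real.exp (-(L * y)) * (Icc (-L) (-L + d)).indicator (fun _ => (1:ℝ)) u) := by
    refine integral_mono ((integrable_F e s L p d R x).const_mul _) (i12.add i3) fun u => ?_
    simp only
    have hK := K_nonneg e s x u
    set T := K e s x u * Real.exp ((x - e * u) * y) with hT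
    have hT0 : 0 ≤ T := by positivity
    have hTle : T ≤ c2 := K_tilt_le hs e x u y
    have hsplit : Real.exp (x * y) * (f1 L p d R u * K e s x u) =
        T * (f1 L p d R u * Real.exp (e * u * y)) := by
      have : Real.exp (x * y) = Real.exp ((x - e * u) * y) * Real.exp (e * u * y) := by
        rw [← Real.exp_add]; congr 1; ring
      rw [this, hT]; ring
    rw [hsplit]
    have n1 : 0 ≤ Real.exp (e ^ 2 * y ^ 2 / 2) * T := by positivity
    have n2 : 0 ≤ c2 * (Icc (L - p) L).indicator (fun _ => (1:ℝ)) u :=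
      mul_nonneg hc20 (Set.indicator_nonneg (fun _ _ => zero_le_one) _)
    have n3 : 0 ≤ c2 * Real.exp (-(L * y)) * (Icc (-L) (-L + d)).indicator (fun _ => (1:ℝ)) u :=
      mul_nonneg (by positivity) (Set.indicator_nonneg (fun _ _ => zero_le_one) _)
    rcases f1_cases hh u with h' | h' | h' | h' | h'
    · -- left spike
      have hu : (Icc (-L) (-L + d)).indicator (fun _ => (1:ℝ)) u = 1 := Set.indicator_of_mem h'.1 _
      rw [h'.2, one_mul, hu] 
      rw [hu] at n3
      have e1 : Real.exp (e * u * y) ≤ Real.exp (-(L * y)) := by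
        refine Real.exp_le_exp.2 ?_
        have h1 : -L ≤ u := h'.1.1
        have h2 : u ≤ 0 := by linarith [h'.1.2]
        have h3 : -L ≤ e * u := by nlinarith
        nlinarith
      have : T * Real.exp (e * u * y) ≤ c2 * Real.exp (-(L * y)) :=
        mul_le_mul hTle e1 (Real.exp_nonneg _) hc20
      linarith
    · -- Gaussian part
      have e1 : f1 L p d R u * Real.exp (e * u * y) ≤ Real.exp (e ^ 2 * y ^ 2 / 2) := by
        rw [h'.2, ← Real.exp_add]
        refine Real.exp_le_exp.2 ?_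
        nlinarith [sq_nonneg (u - e * y)]
      have : T * (f1 L p d R u * Real.exp (e * u * y)) ≤ T * Real.exp (e ^ 2 * y ^ 2 / 2) :=
        mul_le_mul_of_nonneg_left e1 hT0
      linarith
    · -- plateau
      have e1 : f1 L p d R u * Real.exp (e * u * y) ≤ Real.exp (e ^ 2 * y ^ 2 / 2) := by
        rw [h'.2, one_mul]
        refine Real.exp_le_exp.2 ?_
        have h1 : 0 < u := h'.1.1
        have : e * u * y ≤ 0 := mul_nonpos_of_nonneg_of_nonpos (by positivity) hy
        nlinarith [sq_nonneg (e * y)]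
      have : T * (f1 L p d R u * Real.exp (e * u * y)) ≤ T * Real.exp (e ^ 2 * y ^ 2 / 2) :=
        mul_le_mul_of_nonneg_left e1 hT0
      linarith
    · -- far right mass
      have hu : (Icc (L - p) L).indicator (fun _ => (1:ℝ)) u = 1 := Set.indicator_of_mem h'.1 _
      rw [hu] at n2 ⊢
      rw [h'.2, one_mul]
      have e1 : Real.exp (e * u * y) ≤ 1 := by
        rw [Real.exp_le_one_iff]
        have h1 : 0 ≤ u := by linarith [h'.1.1]
        exact mul_nonpos_of_nonneg_of_nonpos (by positivity) hy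
      have : T * Real.exp (e * u * y) ≤ c2 * 1 := mul_le_mul hTle e1 (Real.exp_nonneg _) hc20
      linarith
    · rw [h'.2.2.2.2, zero_mul, mul_zero]
      linarith
  refine key.trans (le_of_eq ?_)
  rw [integral_add i12 i3, integral_add i1 i2, integral_const_mul, tilt he hs, integral_const_mul,
    integral_const_mul, int_ind_Icc (by linarith), int_ind_Icc (by linarith)]
  simp only [intervalIntegral.integral_const, smul_eq_mul]
  have e2 : Real.exp (e ^ 2 * y ^ 2 / 2) * (e⁻¹ * Real.exp (s * y ^ 2 / 2)) =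
      e⁻¹ * Real.exp (y ^ 2 / 2) := by
    have : Real.exp (y ^ 2 / 2) = Real.exp (e ^ 2 * y ^ 2 / 2) * Real.exp (s * y ^ 2 / 2) := by
      rw [← Real.exp_add]; congr 1
      have : s = 1 - e ^ 2 := by linarith
      rw [this]; ring
    rw [this]; ring
  rw [e2]; ring

/-- lower bound for the flow by Jensen's inequality -/
lemma lower_main {e s L p d R q : ℝ} (h : Par L p d R) (hs : 0 < s)
    (h1 : ∫ x, f1 L p d R x * x = 0) (h2 : ∫ x, f1 L p d R x * x ^ 2 ≤ q * M L p d R) (x : ℝ) :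
    M L p d R * (√(2 * π * s))⁻¹ * Real.exp (-(x ^ 2 + e ^ 2 * q) / (2 * s)) ≤
      F e s L p d R x := by
  set C := (√(2 * π * s))⁻¹ with hC
  have hC0 : 0 ≤ C := by positivity
  set E := Real.exp (-(x ^ 2 + e ^ 2 * q) / (2 * s)) with hE
  have hE0 : 0 ≤ E := (Real.exp_pos _).le
  have i0 := integrable_f1 L p d R
  have i1 : Integrable (fun u => f1 L p d R u * u) := integrable_f1_mul L p d R continuous_id
  have i2 : Integrable (fun u => f1 L p d R u * u ^ 2) :=
    integrable_f1_mul L p d R (g := fun u => u ^ 2) (by fun_prop)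
  have key : ∫ u, (C * E * (1 + e ^ 2 * q / (2 * s)) * f1 L p d R u +
      C * E * (e * x / s) * (f1 L p d R u * u) -
      C * E * (e ^ 2 / (2 * s)) * (f1 L p d R u * u ^ 2)) ≤ F e s L p d R x := by
    unfold F
    refine integral_mono (((i0.const_mul _).add (i1.const_mul _)).sub (i2.const_mul _))
      (integrable_F e s L p d R x) fun u => ?_
    simp only
    have hK : C * E * (1 + (2 * e * x * u - e ^ 2 * u ^ 2 + e ^ 2 * q) / (2 * s)) ≤ K e s x u := by
      unfold K
      have e1 : -(x - e * u) ^ 2 / (2 * s) = -(x ^ 2 + e ^ 2 * q) / (2 * s) +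
          (2 * e * x * u - e ^ 2 * u ^ 2 + e ^ 2 * q) / (2 * s) := by ring
      rw [e1, Real.exp_add, ← hE, ← hC, mul_assoc]
      refine mul_le_mul_of_nonneg_left (mul_le_mul_of_nonneg_left ?_ hE0) hC0
      have := Real.add_one_le_exp ((2 * e * x * u - e ^ 2 * u ^ 2 + e ^ 2 * q) / (2 * s))
      linarith
    have hf := f1_nonneg L p d R u
    calc _ = f1 L p d R u *
          (C * E * (1 + (2 * e * x * u - e ^ 2 * u ^ 2 + e ^ 2 * q) / (2 * s))) := by
            field_simp
            ring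
      _ ≤ _ := mul_le_mul_of_nonneg_left hK hf
  have i01 : Integrable (fun u => C * E * (1 + e ^ 2 * q / (2 * s)) * f1 L p d R u +
      C * E * (e * x / s) * (f1 L p d R u * u)) := (i0.const_mul _).add (i1.const_mul _)
  rw [integral_sub i01 (i2.const_mul _), integral_add (i0.const_mul _) (i1.const_mul _),
    integral_const_mul, integral_const_mul, integral_const_mul, int_f1 h, h1] at key
  refine le_trans ?_ key
  have h3 : C * E * (e ^ 2 / (2 * s)) * ∫ x, f1 L p d R x * x ^ 2 ≤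
      C * E * (e ^ 2 / (2 * s)) * (q * M L p d R) := mul_le_mul_of_nonneg_left h2 (by positivity)
  have e3 : C * E * (1 + e ^ 2 * q / (2 * s)) * M L p d R - C * E * (e ^ 2 / (2 * s)) * (q * M L p d R)
      = M L p d R * C * E := by ring
  linarith

/-- lower bound for the flow at the far mass -/
lemma lower_far {e s L p d R : ℝ} (h : Par L p d R) (hs : 0 < s) :
    p * (√(2 * π * s))⁻¹ * Real.exp (-(e ^ 2 * p ^ 2) / (2 * s)) ≤ F e s L p d R (e * L) := by
  have hh := h
  obtain ⟨p0, d0, dL, R0, RL⟩ := h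
  set C := (√(2 * π * s))⁻¹ with hC
  have hC0 : 0 ≤ C := by positivity
  set E := Real.exp (-(e ^ 2 * p ^ 2) / (2 * s)) with hE
  have hE0 : 0 ≤ E := (Real.exp_pos _).le
  have key : ∫ u, C * E * (Icc (L - p) L).indicator (fun _ => (1:ℝ)) u ≤ F e s L p d R (e * L) := by
    unfold F
    refine integral_mono ((integrable_ind_Icc continuous_const).const_mul _)
      (integrable_F e s L p d R _) fun u => ?_
    simp only
    by_cases hu : u ∈ Icc (L - p) L
    · rw [Set.indicator_of_mem hu, mul_one]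
      have hf : f1 L p d R u = 1 := by
        rcases f1_cases hh u with h' | h' | h' | h' | h'
        · exact h'.2
        · exfalso; linarith [h'.1.2, hu.1]
        · exact h'.2
        · exact h'.2
        · exact absurd hu h'.2.2.2.1
      rw [hf, one_mul]
      unfold K
      refine mul_le_mul_of_nonneg_left (Real.exp_le_exp.2 ?_) hC0
      have h1 : 0 ≤ L - u := by linarith [hu.2]
      have h2 : L - u ≤ p := by linarith [hu.1]
      have h3 : (e * L - e * u) ^ 2 ≤ e ^ 2 * p ^ 2 := by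
        have : (L - u) ^ 2 ≤ p ^ 2 := by nlinarith
        have e4 : (e * L - e * u) ^ 2 = e ^ 2 * (L - u) ^ 2 := by ring
        rw [e4]
        exact mul_le_mul_of_nonneg_left this (sq_nonneg _)
      have h5 : 0 < 2 * s := by linarith
      exact div_le_div_of_nonneg_right (by linarith) h5.le
    · rw [Set.indicator_of_notMem hu, mul_zero]
      exact mul_nonneg (f1_nonneg _ _ _ _ _) (K_nonneg _ _ _ _)
  refine le_trans (le_of_eq ?_) key
  rw [integral_const_mul, int_ind_Icc (by linarith)]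
  simp only [intervalIntegral.integral_const, smul_eq_mul]
  ring


/-- half of the Gaussian integral -/
noncomputable def hG : ℝ := √(2 * π) / 2

lemma hG_pos : 0 < hG := by unfold hG; positivity

lemma int_Iio_gauss {b : ℝ} (hb : 0 < b) : ∫ y in Iio (0:ℝ), Real.exp (-(b * y ^ 2 / 2)) = √(2 * π / b) / 2 := by
  have h := integral_gaussian_Ioi (b / 2)
  have h0 := integral_comp_neg_Ioi (0:ℝ) (fun y : ℝ => Real.exp (-(b * y ^ 2 / 2)))
  rw [neg_zero] at h0
  rw [← integral_Iic_eq_integral_Iio, ← h0]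
  have e : ∀ y : ℝ, Real.exp (-(b * (-y) ^ 2 / 2)) = Real.exp (-(b / 2) * y ^ 2) := by
    intro y; congr 1; ring
  simp_rw [e]
  rw [h]
  congr 2
  field_simp

lemma integrable_gauss_b {b : ℝ} (hb : 0 < b) : Integrable fun y : ℝ => Real.exp (-(b * y ^ 2 / 2)) := by
  have h := integrable_exp_neg_mul_sq (b := b / 2) (by positivity)
  refine h.congr (Eventually.of_forall fun y => ?_)
  simp only
  congr 1; ring

/-! ### lower bound for the polar of the flow -/

/-- the lower bound function -/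
noncomputable def low (e s L p d y : ℝ) : ℝ :=
  if y < 0 then (e⁻¹ * Real.exp (y ^ 2 / 2) +
      (√(2 * π * s))⁻¹ * Real.exp (s * y ^ 2 / 2) * (p + d * Real.exp (-(L * y))))⁻¹ else 0

lemma low_nonneg {e s L p d : ℝ} (he : 0 < e) (p0 : 0 < p) (d0 : 0 < d) (y : ℝ) :
    0 ≤ low e s L p d y := by
  unfold low; split_ifs
  · positivity
  · exact le_rfl

lemma low_le_polar {e s L p d R : ℝ} (h : Par L p d R) (he : 0 < e) (he1 : e ≤ 1) (hs : 0 < s)
    (hes : s + e ^ 2 = 1) (x y : ℝ) (hF : 0 < F e s L p d R x) :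
    low e s L p d y ≤ Real.exp (-(x * y)) / F e s L p d R x := by
  unfold low
  split_ifs with hy
  · have hu := upper_tilt h he he1 hs hes x y hy.le
    have hpos : 0 < Real.exp (x * y) * F e s L p d R x := by positivity
    have e1 : Real.exp (-(x * y)) / F e s L p d R x = (Real.exp (x * y) * F e s L p d R x)⁻¹ := by
      rw [Real.exp_neg, mul_inv]; rfl
    rw [e1]
    exact inv_anti₀ hpos hu
  · positivity

lemma inv_add_ge {a b : ℝ} (ha : 0 < a) (hb : 0 ≤ b) : a⁻¹ - a⁻¹ ^ 2 * b ≤ (a + b)⁻¹ := by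
  have h1 : 0 < a + b := by linarith
  rw [← one_div (a + b), le_div_iff₀ h1]
  have : (a⁻¹ - a⁻¹ ^ 2 * b) * (a + b) = 1 - (a⁻¹ * b) ^ 2 := by
    field_simp; ring
  rw [this]
  nlinarith [sq_nonneg (a⁻¹ * b)]

lemma low_ge {e s L p d : ℝ} (he : 0 < e) (hs : 0 < s) (hs1 : s ≤ 1) (p0 : 0 < p) (d0 : 0 < d)
    (y : ℝ) (hy : y < 0) :
    e * Real.exp (-(1 * y ^ 2 / 2)) - e ^ 2 * (√(2 * π * s))⁻¹ * (p * Real.exp (-(1 * y ^ 2 / 2)) +
      d * Real.exp (-(y - (-L)) ^ 2 / (2 * 1) + L ^ 2 / 2)) ≤ low e s L p d y := by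
  unfold low
  rw [if_pos hy]
  set a := e⁻¹ * Real.exp (y ^ 2 / 2) with ha
  set C := (√(2 * π * s))⁻¹ with hC
  have hC0 : 0 ≤ C := by positivity
  set b := C * Real.exp (s * y ^ 2 / 2) * (p + d * Real.exp (-(L * y))) with hb
  have ha0 : 0 < a := by positivity
  have hb0 : 0 ≤ b := by positivity
  refine le_trans ?_ (inv_add_ge ha0 hb0)
  have e1 : a⁻¹ = e * Real.exp (-(1 * y ^ 2 / 2)) := by
    rw [ha, mul_inv, inv_inv, ← Real.exp_neg]; congr 2; ring
  have e2 : a⁻¹ ^ 2 * b ≤ e ^ 2 * C * (p * Real.exp (-(1 * y ^ 2 / 2)) +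
      d * Real.exp (-(y - (-L)) ^ 2 / (2 * 1) + L ^ 2 / 2)) := by
    rw [e1, hb]
    have e3 : Real.exp (-(1 * y ^ 2 / 2)) ^ 2 * Real.exp (s * y ^ 2 / 2) ≤
        Real.exp (-(1 * y ^ 2 / 2)) := by
      rw [← Real.exp_nat_mul, ← Real.exp_add]
      refine Real.exp_le_exp.2 ?_
      push_cast
      nlinarith [sq_nonneg y]
    have e4 : Real.exp (-(y - (-L)) ^ 2 / (2 * 1) + L ^ 2 / 2) =
        Real.exp (-(1 * y ^ 2 / 2)) * Real.exp (-(L * y)) := by
      rw [← Real.exp_add]; congr 1; ring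
    rw [e4]
    have e5 : 0 ≤ e ^ 2 * C * (p + d * Real.exp (-(L * y))) := by positivity
    calc (e * Real.exp (-(1 * y ^ 2 / 2))) ^ 2 *
          (C * Real.exp (s * y ^ 2 / 2) * (p + d * Real.exp (-(L * y))))
        = (e ^ 2 * C * (p + d * Real.exp (-(L * y)))) *
          (Real.exp (-(1 * y ^ 2 / 2)) ^ 2 * Real.exp (s * y ^ 2 / 2)) := by ring
      _ ≤ (e ^ 2 * C * (p + d * Real.exp (-(L * y)))) * Real.exp (-(1 * y ^ 2 / 2)) :=
          mul_le_mul_of_nonneg_left e3 e5
      _ = _ := by ring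
  rw [e1] at *
  linarith

lemma low_le {e s L p d : ℝ} (he : 0 < e) (hs : 0 < s) (p0 : 0 < p) (d0 : 0 < d) (y : ℝ) :
    low e s L p d y ≤ e * Real.exp (-(1 * y ^ 2 / 2)) := by
  unfold low
  split_ifs
  · have h1 : 0 < e⁻¹ * Real.exp (y ^ 2 / 2) := by positivity
    have h2 : 0 ≤ (√(2 * π * s))⁻¹ * Real.exp (s * y ^ 2 / 2) * (p + d * Real.exp (-(L * y))) := by
      positivity
    refine (inv_anti₀ h1 (le_add_of_nonneg_right h2)).trans (le_of_eq ?_)
    rw [mul_inv, inv_inv, ← Real.exp_neg]; congr 2; ring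
  · positivity

lemma measurable_low (e s L p d : ℝ) : Measurable (low e s L p d) := by
  unfold low
  refine Measurable.ite (measurableSet_lt measurable_id measurable_const) ?_ measurable_const
  fun_prop

lemma integrable_low {e s L p d : ℝ} (he : 0 < e) (hs : 0 < s) (p0 : 0 < p) (d0 : 0 < d) :
    Integrable (low e s L p d) := by
  refine Integrable.mono' ((integrable_gauss_b one_pos).const_mul e)
    (measurable_low e s L p d).aestronglyMeasurable (Eventually.of_forall fun y => ?_)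
  rw [Real.norm_eq_abs, abs_of_nonneg (low_nonneg he p0 d0 y)]
  exact low_le he hs p0 d0 y

lemma int_low {e s L p d : ℝ} (he : 0 < e) (hs : 0 < s) (hs1 : s ≤ 1) (p0 : 0 < p) (d0 : 0 < d) :
    e * hG - e ^ 2 * (√(2 * π * s))⁻¹ * (p * hG + d * (√(2 * π) * Real.exp (L ^ 2 / 2))) ≤
      ∫ y, low e s L p d y := by
  have hI := integrable_low (s := s) (L := L) he hs p0 d0
  have i1 : IntegrableOn (fun y : ℝ => Real.exp (-(1 * y ^ 2 / 2))) (Iio 0) :=
    (integrable_gauss_b one_pos).integrableOn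
  have i2' : Integrable (fun y : ℝ => Real.exp (-(y - (-L)) ^ 2 / (2 * 1) + L ^ 2 / 2)) := by
    have := (integrable_gauss_shift one_pos (-L)).mul_const (Real.exp (L ^ 2 / 2))
    refine this.congr (Eventually.of_forall fun y => ?_)
    simp only
    rw [← Real.exp_add]
  have i2 : IntegrableOn (fun y : ℝ => Real.exp (-(y - (-L)) ^ 2 / (2 * 1) + L ^ 2 / 2)) (Iio 0) :=
    i2'.integrableOn
  have h1 : ∫ y in Iio (0:ℝ), (e * Real.exp (-(1 * y ^ 2 / 2)) - e ^ 2 * (√(2 * π * s))⁻¹ *
      (p * Real.exp (-(1 * y ^ 2 / 2)) + d * Real.exp (-(y - (-L)) ^ 2 / (2 * 1) + L ^ 2 / 2))) ≤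
      ∫ y in Iio (0:ℝ), low e s L p d y := by
    refine setIntegral_mono_on ?_ hI.integrableOn measurableSet_Iio fun y hy => ?_
    · exact (i1.const_mul _).sub (((i1.const_mul _).add (i2.const_mul _)).const_mul _)
    · exact low_ge he hs hs1 p0 d0 y hy
  have h2 : ∫ y in Iio (0:ℝ), low e s L p d y ≤ ∫ y, low e s L p d y :=
    setIntegral_le_integral hI (Eventually.of_forall fun y => low_nonneg he p0 d0 y)
  refine le_trans ?_ (h1.trans h2)
  have i3 : IntegrableOn (fun y : ℝ => p * Real.exp (-(1 * y ^ 2 / 2)) +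
      d * Real.exp (-(y - (-L)) ^ 2 / (2 * 1) + L ^ 2 / 2)) (Iio 0) :=
    (i1.const_mul _).add (i2.const_mul _)
  rw [integral_sub (i1.const_mul _) (i3.const_mul _), integral_const_mul, integral_const_mul,
    integral_add (i1.const_mul _) (i2.const_mul _), integral_const_mul, integral_const_mul,
    int_Iio_gauss one_pos]
  have h3 : √(2 * π / 1) / 2 = hG := by unfold hG; rw [div_one]
  rw [h3]
  have h4 : ∫ y in Iio (0:ℝ), Real.exp (-(y - (-L)) ^ 2 / (2 * 1) + L ^ 2 / 2) ≤
      √(2 * π) * Real.exp (L ^ 2 / 2) := by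
    refine (setIntegral_le_integral i2' (Eventually.of_forall fun y => (Real.exp_pos _).le)).trans
      (le_of_eq ?_)
    simp_rw [Real.exp_add]
    rw [integral_mul_const, int_gauss_shift one_pos, mul_one]
  have h5 : 0 ≤ e ^ 2 * (√(2 * π * s))⁻¹ := by positivity
  have h6 : p * hG + d * ∫ y in Iio (0:ℝ), Real.exp (-(y - (-L)) ^ 2 / (2 * 1) + L ^ 2 / 2) ≤
      p * hG + d * (√(2 * π) * Real.exp (L ^ 2 / 2)) := by
    have := mul_le_mul_of_nonneg_left h4 d0.le
    linarith
  have := mul_le_mul_of_nonneg_left h6 h5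
  linarith

/-! ### upper bound for the polar of the flow -/

/-- the upper bound function -/
noncomputable def upp (e s L p q k Mm y : ℝ) : ℝ :=
  if y < k then (Mm * (√(2 * π * s))⁻¹)⁻¹ * Real.exp (e ^ 2 * q / (2 * s)) *
      Real.exp (-(s * y ^ 2 / 2))
  else (p * (√(2 * π * s))⁻¹)⁻¹ * Real.exp (e ^ 2 * p ^ 2 / (2 * s)) * Real.exp (-(e * L) * y)

lemma upp_nonneg {e s L p q k Mm : ℝ} (hM : 0 < Mm) (p0 : 0 < p) (y : ℝ) :
    0 ≤ upp e s L p q k Mm y := by
  unfold upp; split_ifs <;> positivity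

lemma polar_le_upp {e s L p d R q k : ℝ} (h : Par L p d R) (hs : 0 < s)
    (hM : 0 < M L p d R)
    (h1 : ∫ x, f1 L p d R x * x = 0) (h2 : ∫ x, f1 L p d R x * x ^ 2 ≤ q * M L p d R) (y : ℝ) :
    ∃ x, 0 < F e s L p d R x ∧
      Real.exp (-(x * y)) / F e s L p d R x ≤ upp e s L p q k (M L p d R) y := by
  have p0 := h.p0
  have hsq : 0 < √(2 * π * s) := by positivity
  unfold upp
  split_ifs with hy
  · refine ⟨s * y, ?_⟩
    have hl := lower_main (e := e) h hs h1 h2 (s * y)
    set B := M L p d R * (√(2 * π * s))⁻¹ * Real.exp (-((s * y) ^ 2 + e ^ 2 * q) / (2 * s)) with hB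
    have hB0 : 0 < B := by positivity
    refine ⟨lt_of_lt_of_le hB0 hl, ?_⟩
    have h3 : Real.exp (-(s * y * y)) / F e s L p d R (s * y) ≤ Real.exp (-(s * y * y)) / B :=
      div_le_div_of_nonneg_left (Real.exp_pos _).le hB0 hl
    refine h3.trans (le_of_eq ?_)
    rw [hB, div_eq_mul_inv, mul_inv (M L p d R * (√(2 * π * s))⁻¹), ← Real.exp_neg, mul_left_comm]
    have he' : Real.exp (-(s * y * y)) * Real.exp (-(-((s * y) ^ 2 + e ^ 2 * q) / (2 * s))) =
        Real.exp (e ^ 2 * q / (2 * s)) * Real.exp (-(s * y ^ 2 / 2)) := by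
      rw [← Real.exp_add, ← Real.exp_add]
      congr 1
      field_simp
      ring
    rw [he', mul_assoc ((M L p d R * (√(2 * π * s))⁻¹)⁻¹)]
  · refine ⟨e * L, ?_⟩
    have hl := lower_far (e := e) h hs
    set B := p * (√(2 * π * s))⁻¹ * Real.exp (-(e ^ 2 * p ^ 2) / (2 * s)) with hB
    have hB0 : 0 < B := by positivity
    refine ⟨lt_of_lt_of_le hB0 hl, ?_⟩
    have h3 : Real.exp (-(e * L * y)) / F e s L p d R (e * L) ≤ Real.exp (-(e * L * y)) / B :=
      div_le_div_of_nonneg_left (Real.exp_pos _).le hB0 hl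
    refine h3.trans (le_of_eq ?_)
    rw [hB, div_eq_mul_inv, mul_inv (p * (√(2 * π * s))⁻¹), ← Real.exp_neg, mul_left_comm]
    have he' : Real.exp (-(e * L * y)) * Real.exp (-(-(e ^ 2 * p ^ 2) / (2 * s))) =
        Real.exp (e ^ 2 * p ^ 2 / (2 * s)) * Real.exp (-(e * L) * y) := by
      rw [← Real.exp_add, ← Real.exp_add]
      congr 1
      ring
    rw [he', mul_assoc ((p * (√(2 * π * s))⁻¹)⁻¹)]

lemma upp_eq (e s L p q k Mm : ℝ) : upp e s L p q k Mm = fun y =>
    (Iio k).indicator (fun y => (Mm * (√(2 * π * s))⁻¹)⁻¹ * Real.exp (e ^ 2 * q / (2 * s)) *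
      Real.exp (-(s * y ^ 2 / 2))) y +
    (Ici k).indicator (fun y => (p * (√(2 * π * s))⁻¹)⁻¹ * Real.exp (e ^ 2 * p ^ 2 / (2 * s)) *
      Real.exp (-(e * L) * y)) y := by
  ext y
  unfold upp
  by_cases hy : y < k
  · have h2 : y ∉ Ici k := by simpa using hy
    rw [if_pos hy, Set.indicator_of_mem (by exact hy), Set.indicator_of_notMem h2, add_zero]
  · have h2 : y ∈ Ici k := by simpa using hy
    rw [if_neg hy, Set.indicator_of_notMem (by exact hy), Set.indicator_of_mem h2, zero_add]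

lemma integrable_upp {e s L p q k Mm : ℝ} (he : 0 < e) (hs : 0 < s) (hL : 0 < L) :
    Integrable (upp e s L p q k Mm) := by
  rw [upp_eq]
  refine Integrable.add ?_ ?_
  · exact (((integrable_gauss_b hs).const_mul _).integrableOn).integrable_indicator measurableSet_Iio
  · rw [integrable_indicator_iff measurableSet_Ici]
    exact ((integrableOn_Ici_iff_integrableOn_Ioi).2
      (integrableOn_exp_mul_Ioi (a := -(e * L)) (by nlinarith [mul_pos he hL]) k)).const_mul _

lemma int_upp {e s L p q k Mm : ℝ} (he : 0 < e) (hs : 0 < s) (hL : 0 < L) (hM : 0 < Mm)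
    (hk : 0 ≤ k) :
    ∫ y, upp e s L p q k Mm y ≤ (Mm * (√(2 * π * s))⁻¹)⁻¹ * Real.exp (e ^ 2 * q / (2 * s)) *
      (√(2 * π / s) / 2 + k) + (p * (√(2 * π * s))⁻¹)⁻¹ * Real.exp (e ^ 2 * p ^ 2 / (2 * s)) *
      (Real.exp (-(e * L) * k) / (e * L)) := by
  rw [upp_eq, integral_add]
  · refine add_le_add ?_ (le_of_eq ?_)
    · rw [integral_indicator measurableSet_Iio, integral_const_mul]
      refine mul_le_mul_of_nonneg_left ?_ (by positivity)
      have hsplit : Iio k = Iio (0:ℝ) ∪ Ico 0 k := by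
        ext y; simp only [mem_Iio, mem_union, mem_Ico]
        constructor
        · intro h; by_cases h0 : y < 0
          · exact Or.inl h0
          · exact Or.inr ⟨not_lt.1 h0, h⟩
        · rintro (h | h)
          · linarith
          · exact h.2
      have hdisj : Disjoint (Iio (0:ℝ)) (Ico 0 k) := by
        rw [Set.disjoint_left]; intro y h1 h2; exact absurd h1 (not_lt.2 h2.1)
      rw [hsplit, setIntegral_union hdisj measurableSet_Ico (integrable_gauss_b hs).integrableOn
        (integrable_gauss_b hs).integrableOn, int_Iio_gauss hs]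
      refine add_le_add_right ?_ _
      have : ∫ y in Ico 0 k, Real.exp (-(s * y ^ 2 / 2)) ≤ ∫ y in Ico (0:ℝ) k, (1:ℝ) := by
        refine setIntegral_mono_on (integrable_gauss_b hs).integrableOn ?_ measurableSet_Ico
          fun y _ => ?_
        · exact integrableOn_const (by simp)
        · rw [Real.exp_le_one_iff]; nlinarith [sq_nonneg y]
      refine this.trans (le_of_eq ?_)
      simp [hk]
    · rw [integral_indicator measurableSet_Ici, integral_const_mul,
        integral_Ici_eq_integral_Ioi, integral_exp_mul_Ioi (by nlinarith [mul_pos he hL])]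
      congr 1
      rw [neg_div_neg_eq]
  · exact (((integrable_gauss_b hs).const_mul _).integrableOn).integrable_indicator measurableSet_Iio
  · rw [integrable_indicator_iff measurableSet_Ici]
    exact ((integrableOn_Ici_iff_integrableOn_Ioi).2
      (integrableOn_exp_mul_Ioi (a := -(e * L)) (by nlinarith [mul_pos he hL]) k)).const_mul _

/-! ### choice of the parameters -/

/-- parameters -/
noncomputable def pL (r : ℝ) : ℝ := r ^ 2
noncomputable def pp (r : ℝ) : ℝ := (r ^ 6)⁻¹
noncomputable def pd (r : ℝ) : ℝ := Real.exp (-r ^ 4)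
noncomputable def pk (r : ℝ) : ℝ := r⁻¹
noncomputable def prho (r : ℝ) : ℝ := 2 * (1 - Real.exp (-(-pL r + pd r) ^ 2 / 2)) -
  2 * (pp r * pL r - pp r ^ 2 / 2) + 2 * (pL r * pd r - pd r ^ 2 / 2)
noncomputable def pR (r : ℝ) : ℝ := √(prho r)

lemma t_L : Tendsto pL atTop atTop := tendsto_pow_atTop (by norm_num)

lemma t_p : Tendsto pp atTop (𝓝 0) :=
  tendsto_inv_atTop_zero.comp (tendsto_pow_atTop (by norm_num))

lemma t_k : Tendsto pk atTop (𝓝 0) := tendsto_inv_atTop_zero

lemma t_r4 : Tendsto (fun r : ℝ => r ^ 4) atTop atTop := tendsto_pow_atTop (by norm_num)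

/-- `r^2 exp(-r)→0` composed -/
lemma t_pow_exp (n : ℕ) : Tendsto (fun r : ℝ => (r ^ 4) ^ n * Real.exp (-r ^ 4)) atTop (𝓝 0) :=
  (Real.tendsto_pow_mul_exp_neg_atTop_nhds_zero n).comp t_r4

lemma t_d : Tendsto pd atTop (𝓝 0) := by
  refine (t_pow_exp 0).congr fun r => ?_
  unfold pd; ring

lemma t_dL2 : Tendsto (fun r => pd r * pL r ^ 2) atTop (𝓝 0) := by
  have := t_pow_exp 1
  refine this.congr fun r => ?_
  unfold pd pL; ring

lemma t_dL : Tendsto (fun r => pL r * pd r) atTop (𝓝 0) := by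
  refine squeeze_zero' (f := fun r => pL r * pd r) (g := fun r => pd r * pL r ^ 2) ?_ ?_ t_dL2
  · filter_upwards with r
    unfold pL pd; positivity
  · filter_upwards [eventually_ge_atTop 1] with r hr
    have h1 : 1 ≤ pL r := by unfold pL; nlinarith
    have h2 : 0 < pd r := Real.exp_pos _
    have h3 : pL r ≤ pL r ^ 2 := by nlinarith
    nlinarith

lemma t_pL2 : Tendsto (fun r => pp r * pL r ^ 2) atTop (𝓝 0) := by
  have h : Tendsto (fun r : ℝ => (r ^ 2)⁻¹) atTop (𝓝 0) :=
    tendsto_inv_atTop_zero.comp (tendsto_pow_atTop (by norm_num))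
  refine h.congr' ?_
  filter_upwards [eventually_gt_atTop 0] with r hr
  unfold pp pL
  field_simp

lemma t_ppL : Tendsto (fun r => pp r * pL r) atTop (𝓝 0) := by
  have h : Tendsto (fun r : ℝ => (r ^ 4)⁻¹) atTop (𝓝 0) :=
    tendsto_inv_atTop_zero.comp (tendsto_pow_atTop (by norm_num))
  refine h.congr' ?_
  filter_upwards [eventually_gt_atTop 0] with r hr
  unfold pp pL
  field_simp

lemma t_Ld : Tendsto (fun r => -pL r + pd r) atTop atBot :=
  (tendsto_neg_atTop_atBot.comp t_L).atBot_add t_d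

lemma t_expLd : Tendsto (fun r => Real.exp (-(-pL r + pd r) ^ 2 / 2)) atTop (𝓝 0) := by
  have h1 : Tendsto (fun r => (-pL r + pd r) ^ 2) atTop atTop := by
    have := (tendsto_pow_atTop (α := ℝ) (n := 2) (by norm_num)).comp
      (tendsto_neg_atBot_atTop.comp t_Ld)
    refine this.congr fun r => ?_
    simp only [Function.comp]; ring
  have h2 : Tendsto (fun r => -(-pL r + pd r) ^ 2 / 2) atTop atBot :=
    (tendsto_neg_atTop_atBot.comp h1).atBot_div_const (by norm_num)
  exact Real.tendsto_exp_atBot.comp h2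

lemma t_rho : Tendsto prho atTop (𝓝 2) := by
  have h := ((tendsto_const_nhds (x := (2:ℝ))).mul ((tendsto_const_nhds (x := (1:ℝ))).sub t_expLd)).sub
    ((tendsto_const_nhds (x := (2:ℝ))).mul (t_ppL.sub ((t_p.pow 2).div_const 2)))
  have h2 := h.add ((tendsto_const_nhds (x := (2:ℝ))).mul (t_dL.sub ((t_d.pow 2).div_const 2)))
  norm_num at h2
  exact h2

lemma t_R : Tendsto pR atTop (𝓝 (√2)) := t_rho.sqrt

lemma t_A : Tendsto (fun r => A (pL r) (pd r)) atTop (𝓝 hG) := by
  have h := intervalIntegral_tendsto_integral_Iic (f := fun x : ℝ => Real.exp (-x ^ 2 / 2))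
    (μ := volume) (b := 0) (l := atTop) (a := fun r => -pL r + pd r) ?_ t_Ld
  · refine h.trans (le_of_eq ?_)
    congr 1
    have h2 := int_Iio_gauss one_pos
    rw [integral_Iic_eq_integral_Iio]
    unfold hG
    rw [div_one] at h2
    rw [← h2]
    refine integral_congr_ae (Eventually.of_forall fun x => ?_)
    simp only
    congr 1; ring
  · refine Integrable.integrableOn ?_
    refine (integrable_gauss_b one_pos).congr (Eventually.of_forall fun x => ?_)
    simp only
    congr 1; ring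

lemma t_M : Tendsto (fun r => M (pL r) (pp r) (pd r) (pR r)) atTop (𝓝 (hG + √2)) := by
  have := ((t_d.add t_A).add t_R).add t_p
  simpa [M] using this

lemma t_low {e s : ℝ} : Tendsto (fun r => e * hG - e ^ 2 * (√(2 * π * s))⁻¹ *
    (pp r * hG + pd r * (√(2 * π) * Real.exp (pL r ^ 2 / 2)))) atTop (𝓝 (e * hG)) := by
  have h1 : Tendsto (fun r => pd r * (√(2 * π) * Real.exp (pL r ^ 2 / 2))) atTop (𝓝 0) := by
    have h2 : Tendsto (fun r : ℝ => Real.exp (-(r ^ 4 / 2))) atTop (𝓝 0) :=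
      Real.tendsto_exp_neg_atTop_nhds_zero.comp (t_r4.atTop_div_const (by norm_num))
    have h3 := h2.const_mul (√(2 * π))
    rw [mul_zero] at h3
    refine h3.congr fun r => ?_
    unfold pd pL
    rw [mul_left_comm, ← Real.exp_add]
    congr 2; ring
  have h4 := ((t_p.mul_const hG).add h1).const_mul (e ^ 2 * (√(2 * π * s))⁻¹)
  have h5 := (tendsto_const_nhds (x := e * hG)).sub h4
  simpa using h5

lemma t_upp {e s q : ℝ} (he : 0 < e) (hs : 0 < s) : Tendsto (fun r =>
    (M (pL r) (pp r) (pd r) (pR r) * (√(2 * π * s))⁻¹)⁻¹ * Real.exp (e ^ 2 * q / (2 * s)) *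
      (√(2 * π / s) / 2 + pk r) +
      (pp r * (√(2 * π * s))⁻¹)⁻¹ * Real.exp (e ^ 2 * pp r ^ 2 / (2 * s)) *
      (Real.exp (-(e * pL r) * pk r) / (e * pL r))) atTop
      (𝓝 (((hG + √2) * (√(2 * π * s))⁻¹)⁻¹ * Real.exp (e ^ 2 * q / (2 * s)) *
      (√(2 * π / s) / 2))) := by
  have hM : (hG + √2) * (√(2 * π * s))⁻¹ ≠ 0 := by
    have := hG_pos
    positivity
  have h1 := (((t_M.mul_const ((√(2 * π * s))⁻¹)).inv₀ hM).mul_const (Real.exp (e ^ 2 * q / (2 * s)))).mul
    ((tendsto_const_nhds (x := √(2 * π / s) / 2)).add t_k)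
  have h2 : Tendsto (fun r => (pp r * (√(2 * π * s))⁻¹)⁻¹ * Real.exp (e ^ 2 * pp r ^ 2 / (2 * s)) *
      (Real.exp (-(e * pL r) * pk r) / (e * pL r))) atTop (𝓝 0) := by
    have h3 : Tendsto (fun r : ℝ => Real.exp (e ^ 2 * pp r ^ 2 / (2 * s))) atTop (𝓝 1) := by
      have : Tendsto (fun r : ℝ => e ^ 2 * pp r ^ 2 / (2 * s)) atTop (𝓝 0) := by
        have := ((t_p.pow 2).const_mul (e ^ 2)).div_const (2 * s)
        simpa using this
      have := (Real.continuous_exp.tendsto 0).comp this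
      simpa [Function.comp_def] using this
    have h4 : Tendsto (fun r : ℝ => (e * r) ^ 4 * Real.exp (-(e * r))) atTop (𝓝 0) :=
      (Real.tendsto_pow_mul_exp_neg_atTop_nhds_zero 4).comp (tendsto_id.const_mul_atTop he)
    have h5 := (h4.mul h3).const_mul (√(2 * π * s) * (e ^ 5)⁻¹)
    rw [zero_mul, mul_zero] at h5
    refine h5.congr' ?_
    filter_upwards [eventually_gt_atTop 0] with r hr
    have e1 : Real.exp (-(e * pL r) * pk r) = Real.exp (-(e * r)) := by
      congr 1; unfold pL pk; field_simp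
    rw [e1]
    have e2 : (pp r * (√(2 * π * s))⁻¹)⁻¹ = r ^ 6 * √(2 * π * s) := by
      unfold pp; rw [mul_inv, inv_inv, inv_inv]
    rw [e2]
    have e3 : pL r = r ^ 2 := rfl
    rw [e3]
    field_simp
  have h6 := h1.add h2
  simpa using h6

lemma numeric : ((hG + √2) * (√(2 * π * (99/100)))⁻¹)⁻¹ *
    Real.exp ((1/10:ℝ) ^ 2 * 2 / (2 * (99/100))) * (√(2 * π / (99/100)) / 2) < 99/100 * hG := by
  have h1 : √(2 * π * (99/100)) * √(2 * π / (99/100)) = 2 * π := by
    rw [← Real.sqrt_mul (by positivity)]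
    have : 2 * π * (99/100) * (2 * π / (99/100)) = (2 * π) ^ 2 := by field_simp
    rw [this, Real.sqrt_sq (by positivity)]
  have hE : Real.exp ((1/10:ℝ) ^ 2 * 2 / (2 * (99/100))) ≤ 99/98 := by
    have h2 : (1/10:ℝ) ^ 2 * 2 / (2 * (99/100)) = 1/99 := by norm_num
    rw [h2]
    have h3 := Real.add_one_le_exp (-(1/99:ℝ))
    have h4 : Real.exp (1/99:ℝ) * Real.exp (-(1/99:ℝ)) = 1 := by
      rw [← Real.exp_add]; simp
    have h5 := Real.exp_pos (1/99:ℝ)
    nlinarith
  have hE0 := Real.exp_pos ((1/10:ℝ) ^ 2 * 2 / (2 * (99/100)))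
  have hGp := hG_pos
  have hs2 : 0 < √(2:ℝ) := by positivity
  have e1 : ((hG + √2) * (√(2 * π * (99/100)))⁻¹)⁻¹ *
    Real.exp ((1/10:ℝ) ^ 2 * 2 / (2 * (99/100))) * (√(2 * π / (99/100)) / 2) =
    Real.exp ((1/10:ℝ) ^ 2 * 2 / (2 * (99/100))) * π / (hG + √2) := by
    rw [mul_inv, inv_inv]
    have : (hG + √2)⁻¹ * √(2 * π * (99/100)) * Real.exp ((1/10:ℝ) ^ 2 * 2 / (2 * (99/100))) *
      (√(2 * π / (99/100)) / 2) = (hG + √2)⁻¹ * Real.exp ((1/10:ℝ) ^ 2 * 2 / (2 * (99/100))) *
      ((√(2 * π * (99/100)) * √(2 * π / (99/100))) / 2) := by ring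
    rw [this, h1]
    field_simp
  rw [e1, div_lt_iff₀ (by positivity)]
  have e2 : 99/100 * hG * (hG + √2) = 99/100 * (π / 2 + √π) := by
    unfold hG
    have a1 : √(2 * π) * √(2 * π) = 2 * π := Real.mul_self_sqrt (by positivity)
    have a2 : √(2 * π) * √2 = 2 * √π := by
      rw [← Real.sqrt_mul (by positivity)]
      have : 2 * π * 2 = 2 ^ 2 * π := by ring
      rw [this, Real.sqrt_mul (by positivity), Real.sqrt_sq (by norm_num)]
    have : 99/100 * (√(2 * π) / 2) * (√(2 * π) / 2 + √2) =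
      99/100 * ((√(2 * π) * √(2 * π)) / 4 + (√(2 * π) * √2) / 2) := by ring
    rw [this, a1, a2]; ring
  rw [e2]
  have hpi := Real.pi_lt_d2
  have hpi0 := Real.pi_pos
  have hw : √π * √π = π := Real.mul_self_sqrt hpi0.le
  have hw0 : 0 < √π := by positivity
  have hw1 : √π < 19/10 := by
    rw [Real.sqrt_lt' (by norm_num)]; linarith
  have h6 : Real.exp ((1/10:ℝ) ^ 2 * 2 / (2 * (99/100))) * π ≤ 99/98 * π :=
    mul_le_mul_of_nonneg_right hE hpi0.le
  nlinarith

/-- the one-dimensional statement -/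
theorem oneD : ∃ L p d R q k : ℝ, Par L p d R ∧ 0 < M L p d R ∧ 0 ≤ k ∧
    ∫ x, f1 L p d R x * x = 0 ∧ ∫ x, f1 L p d R x * x ^ 2 ≤ q * M L p d R ∧
    ∫ y, upp (1/10) (99/100) L p q k (M L p d R) y < ∫ y, low (99/100) (1 - (99/100)^2) L p d y := by
  have hs2 : (1:ℝ) < √2 := by
    rw [Real.lt_sqrt (by norm_num)]; norm_num
  have hGp := hG_pos
  have ev1 : ∀ᶠ r in atTop, pd r < pL r := by
    filter_upwards [t_d.eventually (gt_mem_nhds (zero_lt_one)), t_L.eventually_gt_atTop 1] with r h1 h2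
    linarith
  have ev2 : ∀ᶠ r in atTop, pR r < pL r - pp r := by
    filter_upwards [t_R.eventually (gt_mem_nhds (by linarith : √(2:ℝ) < √2 + 1)),
      t_p.eventually (gt_mem_nhds (zero_lt_one)), t_L.eventually_gt_atTop (√2 + 2)] with r h1 h2 h3
    linarith
  have ev3 : ∀ᶠ r in atTop, 0 < prho r := t_rho.eventually (lt_mem_nhds (by norm_num))
  have ev4 : ∀ᶠ r in atTop, 0 < M (pL r) (pp r) (pd r) (pR r) :=
    t_M.eventually (lt_mem_nhds (by positivity))
  have ev5 : ∀ᶠ r in atTop, pd r * pL r ^ 2 + A (pL r) (pd r) + pR r ^ 3 / 3 + pp r * pL r ^ 2 ≤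
      2 * M (pL r) (pp r) (pd r) (pR r) := by
    have h1 := ((t_dL2.add t_A).add ((t_R.pow 3).div_const 3)).add t_pL2
    have h2 := t_M.const_mul 2
    have h3 := h1.eventually_lt h2 (by
      have : √(2:ℝ) ^ 3 = 2 * √2 := by
        have := Real.sq_sqrt (show (0:ℝ) ≤ 2 by norm_num)
        calc √(2:ℝ) ^ 3 = √2 ^ 2 * √2 := by ring
          _ = 2 * √2 := by rw [this]
      rw [this]
      nlinarith)
    filter_upwards [h3] with r hr using hr.le
  have ev6 := (t_upp (e := 1/10) (s := 99/100) (q := 2) (by norm_num) (by norm_num)).eventually_lt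
    (t_low (e := 99/100) (s := 1 - (99/100)^2)) numeric
  obtain ⟨r, hr0, h1, h2, h3, h4, h5, h6⟩ :=
    ((eventually_gt_atTop (0:ℝ)).and (ev1.and (ev2.and (ev3.and (ev4.and (ev5.and ev6)))))).exists
  have hp0 : 0 < pp r := by unfold pp; positivity
  have hd0 : 0 < pd r := Real.exp_pos _
  have hPar : Par (pL r) (pp r) (pd r) (pR r) := ⟨hp0, hd0, h1, Real.sqrt_nonneg _, h2⟩
  have hk : 0 ≤ pk r := by unfold pk; positivity
  have hL : 0 < pL r := hPar.L0
  refine ⟨pL r, pp r, pd r, pR r, 2, pk r, hPar, h4, hk, ?_, ?_, ?_⟩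
  · rw [moment1 hPar]
    have : pR r ^ 2 = prho r := Real.sq_sqrt h3.le
    rw [this]
    unfold prho
    ring
  · exact (moment2 hPar).trans h5
  · refine lt_of_le_of_lt (int_upp (by norm_num) (by norm_num) hL h4 hk) (lt_of_lt_of_le h6 ?_)
    exact int_low (by norm_num) (by norm_num) (by norm_num) hp0 hd0

end Pool.Agent.H64.Flow1D
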